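import Mathlib
import Pool.Agent.H.MP_c3a542_nt.A

namespace Pool.Agent.H.MP_c3a542_nt

structure Nice (B : ℤ → ℤ) : Prop where
  odd : ∀ i, 1 ≤ i → B i % 2 = 1
  slow : ∀ i, 1 ≤ i → B i ≤ B (i + 2) ∧ B (i + 2) ≤ B i + 2
  rc : ∀ n, 3 ≤ n → 1 ≤ B (n - 1) ∧ B (n - 1) ≤ n - 1 ∧
    B n = B (B (n - 1)) + B (n - B (n - 1)) + eps n

def W (B : ℤ → ℤ) (r : Bool) (X p : ℤ) : Prop :=
  ∀ j, -18 ≤ j → j ≤ 58 → B (X + j) = p + A r j

lemma slowk {B : ℤ → ℤ} (h : Nice B) (i : ℤ) (hi : 1 ≤ i) (k : ℕ) :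
    B i ≤ B (i + 2 * k) ∧ B (i + 2 * k) ≤ B i + 2 * k := by
  induction k with
  | zero => simp
  | succ k ih =>
    have := h.slow (i + 2 * k) (by omega)
    have e : i + 2 * ((k + 1 : ℕ) : ℤ) = i + 2 * k + 2 := by push_cast; ring
    rw [e]; push_cast; omega

lemma slow' {B : ℤ → ℤ} (h : Nice B) {i j : ℤ} (hi : 1 ≤ i) (hij : i ≤ j) (hp : (j - i) % 2 = 0) :
    B i ≤ B j ∧ B j ≤ B i + (j - i) := by
  obtain ⟨k, hk⟩ : ∃ k : ℕ, j = i + 2 * k := ⟨((j - i) / 2).toNat, by omega⟩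
  have := slowk h i hi k
  rw [← hk] at this
  omega

lemma bnd {B : ℤ → ℤ} (h : Nice B) {r : Bool} {X p : ℤ} (hW : W B r X p) (hX : 100 ≤ X)
    (j : ℤ) (hj : 1 ≤ X + j) : p + lo r j ≤ B (X + j) ∧ B (X + j) ≤ p + hi r j := by
  unfold lo hi
  have a1 := hW (-18) (by norm_num) (by norm_num)
  have a2 := hW (-17) (by norm_num) (by norm_num)
  have a3 := hW 58 (by norm_num) (by norm_num)
  have a4 := hW 57 (by norm_num) (by norm_num)
  split_ifs with h1 h2 h3 h4
  · have := slow' h (i := X + j) (j := X + -18) hj (by omega) (by omega); omega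
  · have := slow' h (i := X + j) (j := X + -17) hj (by omega) (by omega); omega
  · have := slow' h (i := X + 58) (j := X + j) (by omega) (by omega) (by omega); omega
  · have := slow' h (i := X + 57) (j := X + j) (by omega) (by omega) (by omega); omega
  · have := hW j (by omega) (by omega); omega

lemma Avals : A false (-18) = -3 ∧ A false (-17) = -3 ∧ A false 58 = 13 ∧ A false 57 = 13 ∧
    A true (-18) = -15 ∧ A true (-17) = -15 ∧ A true 58 = 3 ∧ A true 57 = 1 := by decide +kernel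

lemma ctr_all (r : Bool) (i : ℕ) (hi2 : i < 2) (s : ℤ) (hs : s % 2 = 1) :
    Ctr r (t0 r + 1 + i) s := by
  by_cases hb : -199 ≤ s ∧ s ≤ 199
  · obtain ⟨k, hk⟩ : ∃ k : ℕ, s = 2 * (k : ℤ) - 199 := ⟨((s + 199) / 2).toNat, by omega⟩
    subst hk
    exact ctr_fin r i hi2 k (by omega)
  · obtain ⟨v1, v2, v3, v4, v5, v6, v7, v8⟩ := Avals
    unfold Ctr lo hi eps
    rcases abs_cases (s - ctr r) with ⟨ha, ha'⟩ | ⟨ha, ha'⟩ <;> rw [ha] <;> cases r <;>
      simp only [ctr, D, c, t0, Bool.not_true, Bool.not_false, if_true, if_false,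
        Bool.false_eq_true, v1, v2, v3, v4, v5, v6, v7, v8] at * <;>
      split_ifs <;> omega

lemma one {B : ℤ → ℤ} (h : Nice B) {r : Bool} {X Y p q : ℤ} (hX : W B r X p) (hY : W B r Y q)
    (hX1 : 100 ≤ X) (hY1 : 100 ≤ Y) (hX2 : X % 2 = 0) (hY2 : Y % 2 = 0)
    (hpq : p + q + c (!r) = X) (t : ℤ) (ht : -100 ≤ t) :
    (B (X + Y + t - 1) - X) % 2 = 1 ∧
    lo r (B (X + Y + t - 1) - X) + lo r (t - (B (X + Y + t - 1) - X)) + eps t - c (!r)
      ≤ B (X + Y + t) - X ∧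
    B (X + Y + t) - X ≤
      hi r (B (X + Y + t - 1) - X) + hi r (t - (B (X + Y + t - 1) - X)) + eps t - c (!r) := by
  obtain ⟨r1, r2, r3⟩ := h.rc (X + Y + t) (by omega)
  have o1 := h.odd (X + Y + t - 1) (by omega)
  set x := B (X + Y + t - 1) with hx
  have b1 := bnd h hX hX1 (x - X) (by omega)
  have b2 := bnd h hY hY1 (t - (x - X)) (by omega)
  have e1 : X + (x - X) = x := by ring
  have e2 : Y + (t - (x - X)) = X + Y + t - x := by ring
  rw [e1] at b1
  rw [e2] at b2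
  have e3 : eps (X + Y + t) = eps t := by
    unfold eps
    have : (X + Y + t) % 2 = t % 2 := by omega
    rw [this]
  rw [e3] at r3
  omega

lemma step {B : ℤ → ℤ} (h : Nice B) {r : Bool} {X Y p q : ℤ} (hX : W B r X p) (hY : W B r Y q)
    (hX1 : 100 ≤ X) (hY1 : 100 ≤ Y) (hX2 : X % 2 = 0) (hY2 : Y % 2 = 0)
    (hpq : p + q + c (!r) = X) : W B (!r) (X + Y + c r) X := by
  have ht0 : -36 ≤ t0 r ∧ t0 r ≤ -8 := by cases r <;> simp [t0]
  have hD : 6 ≤ D r := by cases r <;> simp [D]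
  have init : ctr r - D r ≤ B (X + Y + t0 r) - X ∧ B (X + Y + t0 r) - X ≤ ctr r + D r := by
    obtain ⟨o1, l1, u1⟩ := one h hX hY hX1 hY1 hX2 hY2 hpq (t0 r + 1) (by omega)
    obtain ⟨o2, l2, u2⟩ := one h hX hY hX1 hY1 hX2 hY2 hpq (t0 r + 2) (by omega)
    have e1 : X + Y + (t0 r + 1) - 1 = X + Y + t0 r := by ring
    have e2 : X + Y + (t0 r + 2) - 1 = X + Y + (t0 r + 1) := by ring
    rw [e1] at o1 l1 u1
    rw [e2] at o2 l2 u2
    have c1 := ctr_all r 0 (by norm_num) _ o1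
    have c2 := ctr_all r 1 (by norm_num) _ o2
    have e3 : t0 r + 1 + ((0 : ℕ) : ℤ) = t0 r + 1 := by simp
    have e4 : t0 r + 1 + ((1 : ℕ) : ℤ) = t0 r + 2 := by push_cast; ring
    rw [e3] at c1
    rw [e4] at c2
    have sl := h.slow (X + Y + t0 r) (by omega)
    have e5 : X + Y + t0 r + 2 = X + Y + (t0 r + 2) := by ring
    rw [e5] at sl
    unfold Ctr at c1 c2
    rcases abs_cases (B (X + Y + t0 r) - X - ctr r) with ⟨ha, ha'⟩ | ⟨ha, ha'⟩ <;>
    rcases abs_cases (B (X + Y + (t0 r + 1)) - X - ctr r) with ⟨hb, hb'⟩ | ⟨hb, hb'⟩ <;>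
    rw [ha] at c1 <;> rw [hb] at c2 <;> omega
  have main : ∀ i : ℕ, t0 r + i ≤ 58 + c r →
      Lo r (t0 r + i) ≤ B (X + Y + (t0 r + i)) - X ∧ B (X + Y + (t0 r + i)) - X ≤ Hi r (t0 r + i) := by
    intro i
    induction i with
    | zero =>
      intro _
      have : Lo r (t0 r) = ctr r - D r ∧ Hi r (t0 r) = ctr r + D r := by
        cases r <;> decide +kernel
      simp only [Nat.cast_zero, add_zero]
      omega
    | succ i ih =>
      intro hi
      push_cast at hi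
      have ih := ih (by omega)
      have hi81 : i < 81 := by
        have : c r - t0 r ≤ 22 := by cases r <;> simp [c, t0]
        omega
      obtain ⟨o1, l1, u1⟩ := one h hX hY hX1 hY1 hX2 hY2 hpq (t0 r + i + 1) (by omega)
      have e1 : X + Y + (t0 r + i + 1) - 1 = X + Y + (t0 r + i) := by ring
      rw [e1] at o1 l1 u1
      have rg := rng_fin r i hi81
      obtain ⟨k, hk⟩ : ∃ k : ℕ, B (X + Y + (t0 r + i)) - X = 2 * (k : ℤ) - 39 :=
        ⟨((B (X + Y + (t0 r + i)) - X + 39) / 2).toNat, by omega⟩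
      rw [hk] at ih l1 u1
      have pf := prop_fin r i hi81 k (by omega) ⟨by omega, ih.1, ih.2⟩
      have e2 : t0 r + ((i + 1 : ℕ) : ℤ) = t0 r + i + 1 := by push_cast; ring
      rw [e2]
      omega
  intro j hj1 hj2
  have hc : t0 r + 18 ≤ c r := by cases r <;> simp [c, t0]
  obtain ⟨i, hi⟩ : ∃ i : ℕ, t0 r + i = j + c r := ⟨(j + c r - t0 r).toNat, by omega⟩
  have := main i (by omega)
  rw [hi] at this
  have e1 : X + Y + (j + c r) = X + Y + c r + j := by ring
  rw [e1] at this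
  unfold Lo Hi at this
  have e2 : j + c r - c r = j := by ring
  rw [e2, if_pos hj1, if_pos hj1] at this
  omega

def par : ℕ → Bool
  | 0 => false
  | k + 1 => !(par k)

def N : ℕ → ℤ
  | 0 => 230
  | 1 => 326
  | 2 => 488
  | k + 3 => N (k + 2) + N k + c (par k)

lemma par2 (k : ℕ) : par (k + 2) = par k := by simp [par]

lemma Nb : ∀ k, 200 + k ≤ N k ∧ N k % 2 = 0
  | 0 => by simp [N]
  | 1 => by simp [N]
  | 2 => by simp [N]
  | k + 3 => by
    have h1 := Nb (k + 2)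
    have h2 := Nb k
    have : c (par k) = 12 ∨ c (par k) = -14 := by cases par k <;> simp [c]
    rw [N]; push_cast at *; omega

lemma tabB {B : ℤ → ℤ} (h : Nice B) (h1 : B 1 = 1) (h2 : B 2 = 1) :
    ∀ n : ℕ, 1 ≤ n → n < 1580 → B n = tab n := by
  intro n
  induction n using Nat.strong_induction_on with
  | _ n ih =>
    intro hn1 hn2
    rcases Nat.lt_or_ge n 3 with h3 | h3
    · interval_cases n
      · simp [h1, tab_base.1]
      · simp [h2, tab_base.2]
    · obtain ⟨m, rfl⟩ : ∃ m, n = m + 3 := ⟨n - 3, by omega⟩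
      obtain ⟨r1, r2, r3⟩ := h.rc ((m + 3 : ℕ) : ℤ) (by omega)
      have e1 : ((m + 3 : ℕ) : ℤ) - 1 = ((m + 2 : ℕ) : ℤ) := by push_cast; ring
      rw [e1] at r1 r2 r3
      have i1 := ih (m + 2) (by omega) (by omega) (by omega)
      rw [i1] at r1 r2 r3
      have i2 := ih (tab (m + 2)) (by omega) (by omega) (by omega)
      have i3 := ih (m + 3 - tab (m + 2)) (by omega) (by omega) (by omega)
      have e2 : ((m + 3 : ℕ) : ℤ) - (tab (m + 2) : ℤ) = ((m + 3 - tab (m + 2) : ℕ) : ℤ) := by omega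
      rw [e2, i2, i3] at r3
      have tr := tab_rec m (by omega)
      unfold eps at r3
      split_ifs at r3 tr <;> omega

lemma win {B : ℤ → ℤ} (h : Nice B) (h1 : B 1 = 1) (h2 : B 2 = 1) :
    ∀ k, W B (!(par k)) (N (k + 3)) (N k)
  | 0 => by
    intro j a b
    obtain ⟨i, rfl⟩ : ∃ i : ℕ, j = i - 18 := ⟨(j + 18).toNat, by omega⟩
    have := tabB h h1 h2 (686 + i) (by omega) (by omega)
    have w := (tab_win i (by omega)).1
    have e : N (0 + 3) + (i - 18) = ((686 + i : ℕ) : ℤ) := by simp [N, par, c]; ring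
    rw [e, this, w]; simp [N, par]
  | 1 => by
    intro j a b
    obtain ⟨i, rfl⟩ : ∃ i : ℕ, j = i - 18 := ⟨(j + 18).toNat, by omega⟩
    have := tabB h h1 h2 (1024 + i) (by omega) (by omega)
    have w := (tab_win i (by omega)).2.1
    have e : N (1 + 3) + (i - 18) = ((1024 + i : ℕ) : ℤ) := by simp [N, par, c]; ring
    rw [e, this, w]; simp [N, par]
  | 2 => by
    intro j a b
    obtain ⟨i, rfl⟩ : ∃ i : ℕ, j = i - 18 := ⟨(j + 18).toNat, by omega⟩
    have := tabB h h1 h2 (1498 + i) (by omega) (by omega)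
    have w := (tab_win i (by omega)).2.2
    have e : N (2 + 3) + (i - 18) = ((1498 + i : ℕ) : ℤ) := by simp [N, par, c]; ring
    rw [e, this, w]; simp [N, par]
  | k + 3 => by
    have a := win h h1 h2 k
    have b := win h h1 h2 (k + 2)
    rw [par2] at b
    have n1 := Nb (k + 3)
    have n2 := Nb (k + 2 + 3)
    have s := step h a b (by omega) (by omega) n1.2 n2.2 (by rw [Bool.not_not, N]; ring)
    have e1 : par (k + 3) = !(par k) := by simp [par]
    have e2 : N (k + 3 + 3) = N (k + 3) + N (k + 2 + 3) + c (!(par k)) := by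
      rw [N, e1]; ring
    rw [e1, e2]
    exact s

def V (k : ℕ) : ℤ := 3 * N k + (if par k then 10 else -16)

lemma Vrec (k : ℕ) : V (k + 3) = V (k + 2) + V k := by
  have e1 : par (k + 3) = !(par k) := by simp [par]
  unfold V
  rw [e1, par2, N]
  cases par k <;> simp [c] <;> ring

lemma Vb : ∀ k, 1465 * V k ≤ 1000 * V (k + 1) ∧ 1000 * V (k + 1) ≤ 1466 * V k
  | 0 => by simp [V, N, par]
  | 1 => by simp [V, N, par]
  | k + 2 => by
    have a := Vb k
    have b := Vb (k + 1)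
    have n := Nb k
    have : 0 ≤ V k := by unfold V; split_ifs <;> omega
    rw [show k + 2 + 1 = k + 3 from rfl, Vrec]
    rw [show k + 1 + 1 = k + 2 from rfl] at b
    omega

lemma big {B : ℤ → ℤ} (h : Nice B) (h1 : B 1 = 1) (h2 : B 2 = 1) (k : ℕ) (hk : 30000 ≤ k) :
    317 * N (k + 3) < 1000 * B (N (k + 3)) := by
  have w := win h h1 h2 k 0 (by norm_num) (by norm_num)
  have a0 : -5 ≤ A (!(par k)) 0 := by cases par k <;> decide +kernel
  rw [add_zero] at w
  have a := Vb k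
  have b := Vb (k + 1)
  have d := Vb (k + 2)
  have n := Nb k
  have v1 : V k ≤ 3 * N k + 10 := by unfold V; split_ifs <;> omega
  have v2 : 3 * N (k + 3) - 16 ≤ V (k + 3) := by unfold V; split_ifs <;> omega
  rw [show k + 2 + 1 = k + 3 from rfl] at d
  rw [show k + 1 + 1 = k + 2 from rfl] at b
  have : (30000 : ℤ) ≤ k := by exact_mod_cast hk
  linarith [n.1, a.2, b.2, d.2]

end Pool.Agent.H.MP_c3a542_nt
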